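import Pool.Agent.Helper63.Pak.Defs
import Pool.Agent.Helper11.CurveDegree

/-! The universe `Ω = AlgebraicClosure (RatFunc ℂ)`, and embeddings of function fields into `Ω`. -/

namespace Pool.Agent.Helper63.Pak

open IntermediateField Pool.Agent.Helper11

/-- the concrete universe -/
abbrev Uni : Type := AlgebraicClosure (RatFunc ℂ)

instance : CurveUniverse Uni where
  isAlgClosed := inferInstance
  trdeg_eq := by
    have h1 : Algebra.trdeg ℂ (RatFunc ℂ) + Algebra.trdeg (RatFunc ℂ) Uni = Algebra.trdeg ℂ Uni :=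
      trdeg_add_eq ..
    have h2 : Algebra.trdeg ℂ (Polynomial ℂ) + Algebra.trdeg (Polynomial ℂ) (RatFunc ℂ) =
        Algebra.trdeg ℂ (RatFunc ℂ) := trdeg_add_eq ..
    have h3 : Algebra.trdeg (RatFunc ℂ) Uni = 0 := trdeg_eq_zero
    have h4 : Algebra.IsAlgebraic (Polynomial ℂ) (RatFunc ℂ) :=
      IsLocalization.isAlgebraic _ (nonZeroDivisors (Polynomial ℂ))
    have h5 : Algebra.trdeg (Polynomial ℂ) (RatFunc ℂ) = 0 := trdeg_eq_zero
    rw [← h1, ← h2, h3, h5, Polynomial.trdeg_of_isDomain]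
    simp

variable {Ω : Type} [Field Ω] [Algebra ℂ Ω] [CurveUniverse Ω]

theorem exists_transcendental_of_trdeg {F : Type} [Field F] [Algebra ℂ F]
    (h : Algebra.trdeg ℂ F = 1) : ∃ t : F, Transcendental ℂ t := by
  by_contra hc
  have : Algebra.IsAlgebraic ℂ F := ⟨fun z => by
    by_contra hz
    exact hc ⟨z, hz⟩⟩
  rw [trdeg_eq_zero] at h
  exact zero_ne_one h

/-- a function field of one variable embeds into `Ω` -/
theorem exists_embedding {F : Type} [Field F] [Algebra ℂ F] (hF : IsCurveField ℂ F) :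
    Nonempty (F →ₐ[ℂ] Ω) := by
  have := CurveUniverse.isAlgClosed (Ω := Ω)
  obtain ⟨t, ht⟩ := exists_transcendental_of_trdeg hF.trdeg_eq_one
  obtain ⟨s, hs⟩ := exists_transcendental_of_trdeg (CurveUniverse.trdeg_eq (Ω := Ω))
  have hfd := finiteDimensional_adjoin hF ht
  let φ : ℂ⟮t⟯ →ₐ[ℂ] Ω := (ℂ⟮s⟯.val).comp
    ((RatFunc.algEquivOfTranscendental t ht).symm.trans
      (RatFunc.algEquivOfTranscendental s hs)).toAlgHom
  let _ : Algebra ℂ⟮t⟯ Ω := φ.toRingHom.toAlgebra
  have : IsScalarTower ℂ ℂ⟮t⟯ Ω := IsScalarTower.of_algebraMap_eq fun c => (φ.commutes c).symm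
  have ψ : F →ₐ[ℂ⟮t⟯] Ω := IsAlgClosed.lift
  exact ⟨ψ.restrictScalars ℂ⟩

/-- the image of a function field under an embedding is a function field in the sense of `FF` -/
theorem ff_fieldRange {F : Type} [Field F] [Algebra ℂ F] (hF : IsCurveField ℂ F)
    (ι : F →ₐ[ℂ] Ω) : FF ι.fieldRange := by
  constructor
  · obtain ⟨u, hu⟩ := hF.fg
    classical
    refine ⟨u.image ι, ?_⟩
    rw [Finset.coe_image, ← adjoin_map, hu]
    ext z
    simp [IntermediateField.mem_map]
  · intro h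
    obtain ⟨t, ht⟩ := exists_transcendental_of_trdeg hF.trdeg_eq_one
    have h1 : ι t ∈ ι.fieldRange := ⟨t, rfl⟩
    rw [h, IntermediateField.mem_bot] at h1
    obtain ⟨c, hc⟩ := h1
    apply ht
    have : t = algebraMap ℂ F c := ι.injective (hc.symm.trans (ι.commutes c).symm)
    rw [this]
    exact isAlgebraic_algebraMap c

end Pool.Agent.Helper63.Pak
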