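import Pool.Agent.Helper33.Pak.RAOmega
import Pool.Agent.Helper63.Pak.Universe

/-! Piece RA, rational function half: composition, degrees, Moebius conjugacy. -/

namespace Pool.Agent.Helper63.Pak

open IntermediateField

variable {A B C : RatFunc ℂ}

theorem exists_uni_transcendental : ∃ y : Uni, Transcendental ℂ y :=
  exists_transcendental_of_trdeg (CurveUniverse.trdeg_eq (Ω := Uni))

theorem comp_X : comp A RatFunc.X = A := by
  obtain ⟨y, hy⟩ := exists_uni_transcendental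
  apply ev_injective hy
  rw [ev_comp' hy, ev_X]

theorem X_comp : comp RatFunc.X A = A := by
  obtain ⟨y, hy⟩ := exists_uni_transcendental
  apply ev_injective hy
  rw [ev_comp' hy, ev_X]

theorem comp_assoc (hC : 1 ≤ rdeg C) : comp (comp A B) C = comp A (comp B C) := by
  obtain ⟨y, hy⟩ := exists_uni_transcendental
  apply ev_injective hy
  rw [ev_comp' hy, ev_comp' hy, ev_comp' hy, ev_comp' (transcendental_ev hy hC)]

theorem rdeg_C (c : ℂ) : rdeg (RatFunc.C c) = 0 := by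
  simp [rdeg]

theorem exists_C_of_rdeg_eq_zero (h : rdeg A = 0) : ∃ c : ℂ, A = RatFunc.C c := by
  rw [rdeg] at h
  have h1 : A.num.natDegree = 0 := by omega
  have h2 : A.denom.natDegree = 0 := by omega
  have h3 : A.denom = 1 := by
    have := A.monic_denom
    exact Polynomial.eq_one_of_monic_natDegree_zero this h2
  obtain ⟨c, hc⟩ := Polynomial.natDegree_eq_zero.1 h1
  refine ⟨c, ?_⟩
  rw [← RatFunc.num_div_denom A, ← hc, h3, map_one, div_one, RatFunc.algebraMap_C]

theorem rdeg_pos_iff : 1 ≤ rdeg A ↔ ∀ c : ℂ, A ≠ RatFunc.C c := by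
  constructor
  · intro h c hc
    rw [hc, rdeg_C] at h
    omega
  · intro h
    by_contra h0
    obtain ⟨c, hc⟩ := exists_C_of_rdeg_eq_zero (A := A) (by omega)
    exact h c hc

theorem comp_C (c : ℂ) : comp A (RatFunc.C c) = RatFunc.C (A.num.eval c / A.denom.eval c) := by
  rw [comp, RatFunc.eval, map_div₀, Polynomial.eval₂_hom, Polynomial.eval₂_hom]

theorem C_comp (c : ℂ) : comp (RatFunc.C c) A = RatFunc.C c := by
  rw [comp, RatFunc.eval, RatFunc.num_C, RatFunc.denom_C]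
  simp

theorem rdeg_comp : rdeg (comp A B) = rdeg A * rdeg B := by
  rcases Nat.eq_zero_or_pos (rdeg B) with hB | hB
  · obtain ⟨c, rfl⟩ := exists_C_of_rdeg_eq_zero hB
    rw [comp_C, rdeg_C, rdeg_C, mul_zero]
  rcases Nat.eq_zero_or_pos (rdeg A) with hA | hA
  · obtain ⟨c, rfl⟩ := exists_C_of_rdeg_eq_zero hA
    rw [C_comp, rdeg_C, zero_mul]
  obtain ⟨y, hy⟩ := exists_uni_transcendental
  have h1 := relfinrank_ev hy hB
  have h2 := relfinrank_ev (transcendental_ev hy hB) hA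
  have h3 : ℂ⟮ev A (ev B y)⟯ ≤ ℂ⟮ev B y⟯ := by
    rw [adjoin_simple_le_iff]
    exact ev_mem (mem_adjoin_simple_self ℂ _)
  have h4 : ℂ⟮ev B y⟯ ≤ ℂ⟮y⟯ := by
    rw [adjoin_simple_le_iff]
    exact ev_mem (mem_adjoin_simple_self ℂ _)
  have h5 := relfinrank_mul_relfinrank h3 h4
  rw [h1, h2, ← ev_comp' hy] at h5
  have hne : 1 ≤ rdeg (comp A B) := by
    rw [rdeg_pos_iff]
    intro c hc
    have h6 := transcendental_ev (transcendental_ev hy hB) hA
    rw [← ev_comp' hy, hc] at h6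
    apply h6
    have : ev (RatFunc.C c) y = algebraMap ℂ Uni c := by
      rw [ev, RatFunc.eval, RatFunc.num_C, RatFunc.denom_C]
      simp
    rw [this]
    exact isAlgebraic_algebraMap c
  rw [← relfinrank_ev hy hne, ← h5]

theorem rdeg_X : rdeg RatFunc.X = 1 := by
  simp [rdeg, RatFunc.num_X, RatFunc.denom_X]

theorem rdeg_iter (n : ℕ) : rdeg (iter A n) = rdeg A ^ n := by
  induction n with
  | zero => rw [iter, rdeg_X, pow_zero]
  | succ n ih => rw [iter, rdeg_comp, ih, pow_succ, mul_comm]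

theorem iter_add (hA : 1 ≤ rdeg A) (m n : ℕ) : iter A (m + n) = comp (iter A m) (iter A n) := by
  induction m with
  | zero => rw [zero_add, iter, X_comp]
  | succ m ih =>
    rw [Nat.succ_add, iter, iter, ih, comp_assoc]
    rw [rdeg_iter]
    exact Nat.one_le_pow _ _ (by omega)

theorem comp_right_cancel (hC : 1 ≤ rdeg C) (h : comp A C = comp B C) : A = B := by
  obtain ⟨y, hy⟩ := exists_uni_transcendental
  apply ev_injective (transcendental_ev hy hC)
  rw [← ev_comp' hy, h, ev_comp' hy]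

/-- a Moebius transformation has a two-sided inverse -/
theorem exists_mob_inv {μ : RatFunc ℂ} (hμ : rdeg μ = 1) :
    ∃ ν : RatFunc ℂ, rdeg ν = 1 ∧ comp ν μ = RatFunc.X ∧ comp μ ν = RatFunc.X := by
  obtain ⟨y, hy⟩ := exists_uni_transcendental
  have h1 := relfinrank_ev hy hμ.ge
  rw [hμ, relfinrank_eq_one_iff, adjoin_simple_le_iff] at h1
  obtain ⟨ν, hν⟩ := exists_ev_of_mem (transcendental_ev hy hμ.ge) h1
  have h2 : comp ν μ = RatFunc.X := by
    apply ev_injective hy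
    rw [ev_comp' hy, ← hν, ev_X]
  have h3 : rdeg ν = 1 := by
    have := congrArg rdeg h2
    rwa [rdeg_comp, hμ, mul_one, rdeg_X] at this
  refine ⟨ν, h3, h2, ?_⟩
  apply comp_right_cancel hμ.ge
  rw [comp_assoc hμ.ge, h2, comp_X, X_comp]

theorem MobConj.refl (A : RatFunc ℂ) : MobConj A A :=
  ⟨RatFunc.X, rdeg_X, by rw [comp_X, X_comp]⟩

theorem MobConj.rdeg_eq (h : MobConj A B) : rdeg A = rdeg B := by
  obtain ⟨μ, hμ, h⟩ := h
  have := congrArg rdeg h
  rwa [rdeg_comp, rdeg_comp, hμ, one_mul, mul_one] at this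

theorem MobConj.symm (hA : 1 ≤ rdeg A) (h : MobConj A B) : MobConj B A := by
  have hB : 1 ≤ rdeg B := h.rdeg_eq ▸ hA
  obtain ⟨μ, hμ, h⟩ := h
  obtain ⟨ν, hν, h1, h2⟩ := exists_mob_inv hμ
  refine ⟨ν, hν, ?_⟩
  apply comp_right_cancel hμ.ge
  rw [comp_assoc hμ.ge, ← h, ← comp_assoc hA, h1, X_comp, comp_assoc hμ.ge, h1, comp_X]

theorem MobConj.trans (hA : 1 ≤ rdeg A) (h : MobConj A B) (h' : MobConj B C) : MobConj A C := by
  obtain ⟨μ, hμ, h⟩ := h
  obtain ⟨ν, hν, h'⟩ := h'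
  refine ⟨comp ν μ, by rw [rdeg_comp, hμ, hν], ?_⟩
  rw [comp_assoc hA, h, ← comp_assoc hμ.ge, h', comp_assoc hμ.ge]

theorem IsPow.of_mobConj (hA : 1 ≤ rdeg A) (h : MobConj A B) (hB : IsPow B) : IsPow A := by
  rw [IsPow, h.rdeg_eq]
  exact hB.imp (fun h' => h.trans hA h') (fun h' => h.trans hA h')

theorem IsCheb.of_mobConj (hA : 1 ≤ rdeg A) (h : MobConj A B) (hB : IsCheb B) : IsCheb A := by
  rw [IsCheb, h.rdeg_eq]
  exact hB.imp (fun h' => h.trans hA h') (fun h' => h.trans hA h')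

end Pool.Agent.Helper63.Pak
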