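import Pool.Agent.Helper63.Pak.Rat
import Pool.Agent.Helper11.CurveBasic

/-!
# Pakovich's question (MP_005844_an): the objects of the final statement

Points of the smooth projective curve with function field `K` are the discrete valuation rings of
`K` containing `ℂ` (`CurvePt ℂ K`); the genus is defined by `2 g - 2 = deg (dt)`.
-/

namespace Pool.Agent.Helper63.Pak

open Pool.Agent.Helper11

section Genus

variable {K : Type} [Field K] [Algebra ℂ K]

/-- The order at the point `P` of the differential `dt`: `ord_P (t - c) - 1` if `t` has the finite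
value `c` at `P`, and `ord_P t - 1` (that is `-(pole order) - 1`) if `t` has a pole at `P`. -/
noncomputable def ordDiff (P : CurvePt ℂ K) (t : K) : ℤ := open Classical in
  if h : ∃ c : ℂ, 0 < P.ord (t - algebraMap ℂ K c) then P.ord (t - algebraMap ℂ K h.choose) - 1
  else P.ord t - 1

variable (K) in
/-- `K` is a function field of one variable over `ℂ` of genus `g`: the canonical divisor `(dt)` has
degree `2 g - 2`. -/
def HasGenus (g : ℕ) : Prop :=
  IsCurveField ℂ K ∧ ∃ t : K, Transcendental ℂ t ∧ {P : CurvePt ℂ K | ordDiff P t ≠ 0}.Finite ∧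
    ∑ᶠ P : CurvePt ℂ K, ordDiff P t = 2 * (g : ℤ) - 2

end Genus

/-- The polynomial `P₁(x) Q₂(y) - P₂(y) Q₁(x)` defining the curve `F(x) - G(y) = 0`, for
`F = P₁ / Q₁` and `G = P₂ / Q₂` in lowest terms. -/
noncomputable def curvePoly (F G : RatFunc ℂ) : MvPolynomial (Fin 2) ℂ :=
  Polynomial.aeval (MvPolynomial.X 0 : MvPolynomial (Fin 2) ℂ) F.num *
      Polynomial.aeval (MvPolynomial.X 1 : MvPolynomial (Fin 2) ℂ) G.denom -
    Polynomial.aeval (MvPolynomial.X 1 : MvPolynomial (Fin 2) ℂ) G.num *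
      Polynomial.aeval (MvPolynomial.X 0 : MvPolynomial (Fin 2) ℂ) F.denom

theorem isDomain_coordRing {f : MvPolynomial (Fin 2) ℂ} (hf : Irreducible f) :
    IsDomain (MvPolynomial (Fin 2) ℂ ⧸ Ideal.span {f}) := by
  rw [Ideal.Quotient.isDomain_iff_prime, Ideal.span_singleton_prime hf.ne_zero]
  exact hf.prime

/-- The irreducible plane curve `f = 0` has geometric genus `g`: this is the genus of its function
field, the field of fractions of `ℂ[x, y] / (f)`. -/
def CurveHasGenus (f : MvPolynomial (Fin 2) ℂ) (hf : Irreducible f) (g : ℕ) : Prop :=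
  haveI := isDomain_coordRing hf
  HasGenus (FractionRing (MvPolynomial (Fin 2) ℂ ⧸ Ideal.span {f})) g

/-- The curve `F(x) - G(y) = 0` has a factor (irreducible component) of genus `0` or `1`. -/
def HasFactorOfGenusLEOne (F G : RatFunc ℂ) : Prop :=
  ∃ (f : MvPolynomial (Fin 2) ℂ) (hf : Irreducible f), f ∣ curvePoly F G ∧
    (CurveHasGenus f hf 0 ∨ CurveHasGenus f hf 1)

/-- Lattès maps: `A ∘ Θ = Θ ∘ ψ` for an elliptic curve `E`, an affine map `ψ : E → E` and a
non-constant holomorphic map `Θ : E → P¹`.  In terms of the function field `ℂ(E)` of a Weierstrass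
curve: `φ = ψ^*` is a `ℂ`-endomorphism of `ℂ(E)`, `θ = Θ ∈ ℂ(E)` is non-constant and
`φ(θ) = A(θ)`. -/
def IsLattesW (A : RatFunc ℂ) : Prop :=
  ∃ (W : WeierstrassCurve ℂ) (_ : W.IsElliptic)
    (φ : W.toAffine.FunctionField →ₐ[ℂ] W.toAffine.FunctionField) (θ : W.toAffine.FunctionField),
    Transcendental ℂ θ ∧ φ θ = RatFunc.eval (algebraMap ℂ W.toAffine.FunctionField) θ A

/-- Special rational functions: Lattès maps and the conjugates of `z ^ (±n)` and `±T_n`. -/
def IsSpecial (A : RatFunc ℂ) : Prop :=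
  IsLattesW A ∨
    (∃ n : ℕ, MobConj A (RatFunc.X ^ n) ∨ MobConj A (RatFunc.X ^ n)⁻¹) ∨
      ∃ n : ℕ, MobConj A (cheb n) ∨ MobConj A (-cheb n)

end Pool.Agent.Helper63.Pak
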