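import Pool.Agent.Helper63.Pak.Rat

/-!
# Pakovich's question (MP_005844_an): definitions

`Ω` is an algebraically closed field of transcendence degree one over `ℂ`; function fields are the
finitely generated intermediate fields `K ≠ ⊥`.  A *point* of `Ω` is a valuation ring `ℂ ⊆ V ≠ Ω`;
the places of `K` are the points up to equality on `K`.  Ramification indices are *defined* as
indices of stabilisers in `Aut (Ω/ℂ)`.
-/

namespace Pool.Agent.Helper63.Pak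

open IntermediateField

/-! ### rational functions (see also `Rat.lean`) -/

/-- conjugate to `z ^ n` or `z ^ (-n)` -/
def IsPow (A : RatFunc ℂ) : Prop :=
  MobConj A (RatFunc.X ^ rdeg A) ∨ MobConj A (RatFunc.X ^ rdeg A)⁻¹

/-- conjugate to `T_n` or `-T_n` -/
def IsCheb (A : RatFunc ℂ) : Prop := MobConj A (cheb (rdeg A)) ∨ MobConj A (-cheb (rdeg A))

/-- the map induced on `P^1(ℂ)` -/
noncomputable def pmap (A : RatFunc ℂ) : OnePoint ℂ → OnePoint ℂ
  | some z => open Classical in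
      if A.denom.eval z = 0 then OnePoint.infty else ((A.num.eval z / A.denom.eval z : ℂ) : OnePoint ℂ)
  | none => open Classical in
      if A.denom.coeff (rdeg A) = 0 then OnePoint.infty
      else ((A.num.coeff (rdeg A) / A.denom.coeff (rdeg A) : ℂ) : OnePoint ℂ)

/-- the polynomial whose roots are the finite points of the fibre over `w` -/
noncomputable def fibPoly (A : RatFunc ℂ) : OnePoint ℂ → Polynomial ℂ
  | some w => A.num - Polynomial.C w * A.denom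
  | none => A.denom

/-- local degree of `A` at a point of `P^1(ℂ)` -/
noncomputable def locDeg (A : RatFunc ℂ) : OnePoint ℂ → ℕ
  | some z => (fibPoly A (pmap A (some z))).rootMultiplicity z
  | none => rdeg A - (fibPoly A (pmap A none)).natDegree

/-- local degree of the `k`-th iterate (chain rule) -/
noncomputable def locIter (A : RatFunc ℂ) (k : ℕ) (q : OnePoint ℂ) : ℕ :=
  ∏ i ∈ Finset.range k, locDeg A ((pmap A)^[i] q)

/-- no finite totally invariant set (no exceptional point) -/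
def NoExc (A : RatFunc ℂ) : Prop :=
  ∀ T : Set (OnePoint ℂ), T.Finite → T.Nonempty → pmap A ⁻¹' T ≠ T

/-! ### the universe `Ω` -/

/-- `Ω` is algebraically closed, of transcendence degree one over `ℂ` -/
class CurveUniverse (Ω : Type) [Field Ω] [Algebra ℂ Ω] : Prop where
  isAlgClosed : IsAlgClosed Ω
  trdeg_eq : Algebra.trdeg ℂ Ω = 1

variable {Ω : Type} [Field Ω] [Algebra ℂ Ω]

/-- value of a rational function at an element of `Ω` -/
noncomputable def ev (A : RatFunc ℂ) (z : Ω) : Ω := RatFunc.eval (algebraMap ℂ Ω) z A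

/-- function fields -/
def FF (K : IntermediateField ℂ Ω) : Prop := K.FG ∧ K ≠ ⊥

/-- `g` is the identity on `K` -/
def Fixes (g : Ω ≃ₐ[ℂ] Ω) (K : IntermediateField ℂ Ω) : Prop := ∀ z ∈ K, g z = z

/-- the image of `K` under an automorphism -/
noncomputable abbrev mapF (g : Ω ≃ₐ[ℂ] Ω) (K : IntermediateField ℂ Ω) : IntermediateField ℂ Ω :=
  K.map (g : Ω →ₐ[ℂ] Ω)

variable (Ω) in
/-- a point: a valuation ring of `Ω` containing `ℂ`, different from `Ω` -/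
@[ext]
structure Pt where
  ring : ValuationSubring Ω
  const_mem : ∀ c : ℂ, algebraMap ℂ Ω c ∈ ring
  ne_top : ring ≠ ⊤

/-- the action of `Aut (Ω/ℂ)` on points: `z ∈ g • v ↔ g⁻¹ z ∈ v` -/
noncomputable instance : SMul (Ω ≃ₐ[ℂ] Ω) (Pt Ω) where
  smul g v :=
    { ring := v.ring.comap (g.symm : Ω →+* Ω)
      const_mem := fun c => by
        simp only [ValuationSubring.mem_comap]
        have : (g.symm : Ω →+* Ω) (algebraMap ℂ Ω c) = algebraMap ℂ Ω c := g.symm.commutes c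
        rw [this]
        exact v.const_mem c
      ne_top := fun h => v.ne_top (by
        refine top_unique fun z _ => ?_
        have h1 : g z ∈ v.ring.comap (g.symm : Ω →+* Ω) := by rw [h]; trivial
        rw [ValuationSubring.mem_comap] at h1
        simpa using h1) }

theorem mem_smul_ring {g : Ω ≃ₐ[ℂ] Ω} {v : Pt Ω} {z : Ω} :
    z ∈ (g • v).ring ↔ g.symm z ∈ v.ring := Iff.rfl

noncomputable instance : MulAction (Ω ≃ₐ[ℂ] Ω) (Pt Ω) where
  one_smul v := Pt.ext (by ext z; exact Iff.rfl)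
  mul_smul g h v := Pt.ext (by ext z; exact Iff.rfl)

/-- the value in `P^1(ℂ)` of `z` at `v` -/
noncomputable def val (v : Pt Ω) (z : Ω) : OnePoint ℂ := open Classical in
  if h : ∃ c : ℂ, v.ring.valuation (z - algebraMap ℂ Ω c) < 1 then ((h.choose : ℂ) : OnePoint ℂ)
  else OnePoint.infty

/-- two points induce the same place of `K` -/
def SameOn (K : IntermediateField ℂ Ω) (v w : Pt Ω) : Prop := ∀ z ∈ K, (z ∈ v.ring ↔ z ∈ w.ring)

/-- equality on `K` as an equivalence relation -/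
def sameSetoid (K : IntermediateField ℂ Ω) : Setoid (Pt Ω) where
  r := SameOn K
  iseqv := ⟨fun _ _ _ => Iff.rfl, fun h z hz => (h z hz).symm,
    fun h h' z hz => (h z hz).trans (h' z hz)⟩

/-- the places of `K` -/
def Pl (K : IntermediateField ℂ Ω) : Type := Quotient (sameSetoid K)

/-- the place of `K` induced by `v` -/
def Pl.mk (K : IntermediateField ℂ Ω) (v : Pt Ω) : Pl K := Quotient.mk (sameSetoid K) v

/-- a point inducing the place `P` -/
noncomputable def Pl.pt {K : IntermediateField ℂ Ω} (P : Pl K) : Pt Ω := Quotient.out P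

theorem Pl.mk_pt {K : IntermediateField ℂ Ω} (P : Pl K) : Pl.mk K P.pt = P := Quotient.out_eq P

theorem Pl.mk_eq_mk {K : IntermediateField ℂ Ω} {v w : Pt Ω} :
    Pl.mk K v = Pl.mk K w ↔ SameOn K v w := Quotient.eq (r := sameSetoid K)

theorem Pl.sameOn_pt_mk (K : IntermediateField ℂ Ω) (v : Pt Ω) : SameOn K (Pl.mk K v).pt v :=
  Pl.mk_eq_mk.1 (Pl.mk_pt _)

/-- the stabiliser of `v` in `Aut (Ω/K)` -/
def stab (v : Pt Ω) (K : IntermediateField ℂ Ω) : Subgroup (Ω ≃ₐ[ℂ] Ω) where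
  carrier := {g | Fixes g K ∧ g • v = v}
  one_mem' := ⟨fun _ _ => rfl, one_smul _ v⟩
  mul_mem' {g h} hg hh := ⟨fun z hz => by
      rw [AlgEquiv.mul_apply, hh.1 z hz, hg.1 z hz], by rw [mul_smul, hh.2, hg.2]⟩
  inv_mem' {g} hg := ⟨fun z hz => by
      have := congrArg g.symm (hg.1 z hz)
      rw [AlgEquiv.symm_apply_apply] at this
      exact this.symm, by rw [inv_smul_eq_iff, hg.2]⟩

theorem mem_stab {v : Pt Ω} {K : IntermediateField ℂ Ω} {g : Ω ≃ₐ[ℂ] Ω} :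
    g ∈ stab v K ↔ Fixes g K ∧ g • v = v := Iff.rfl

/-- ramification index of `K'/K` at `v` -/
noncomputable def e (v : Pt Ω) (K K' : IntermediateField ℂ Ω) : ℕ :=
  (stab v K').relIndex (stab v K)

/-- total ramification `∑ (e_P - 1)` over the places `P` of `K'` -/
noncomputable def Ram (K K' : IntermediateField ℂ Ω) : ℕ := ∑ᶠ P : Pl K', (e P.pt K K' - 1)

/-- Euler characteristic of `K` computed with the function `t` (Riemann–Hurwitz) -/
noncomputable def chiOver (t : Ω) (K : IntermediateField ℂ Ω) : ℤ :=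
  2 * (ℂ⟮t⟯.relfinrank K : ℤ) - Ram ℂ⟮t⟯ K

/-- Euler characteristic `2 - 2 g` of `K` -/
noncomputable def chi (K : IntermediateField ℂ Ω) : ℤ := open Classical in
  if h : ∃ t ∈ K, Transcendental ℂ t then chiOver h.choose K else 0

/-- order at `v` of the element `z` of the function field `K` -/
noncomputable def ordAt (v : Pt Ω) (K : IntermediateField ℂ Ω) (z : Ω) : ℤ := open Classical in
  if val v z = ((0 : ℂ) : OnePoint ℂ) then (e v ℂ⟮z⟯ K : ℤ)
  else if val v z = OnePoint.infty then -(e v ℂ⟮z⟯ K : ℤ) else 0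

/-- order of a rational function at a point of `P^1(ℂ)` -/
noncomputable def ordQ (Q : RatFunc ℂ) (p : OnePoint ℂ) : ℤ := open Classical in
  if pmap Q p = ((0 : ℂ) : OnePoint ℂ) then (locDeg Q p : ℤ)
  else if pmap Q p = OnePoint.infty then -(locDeg Q p : ℤ) else 0

variable (Ω) in
/-- The facts of place theory used by the dynamical part (proved in the `PT` files). -/
structure PTFacts : Prop where
  /-- finiteness of degrees -/
  relfinrank_pos : ∀ {K K' : IntermediateField ℂ Ω}, FF K → FF K' → K ≤ K' → 0 < K.relfinrank K'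
  e_pos : ∀ (v : Pt Ω) {K K' : IntermediateField ℂ Ω}, FF K → FF K' → K ≤ K' → 0 < e v K K'
  e_congr : ∀ {v w : Pt Ω} {K K' : IntermediateField ℂ Ω}, FF K → FF K' → K ≤ K' →
    SameOn K' v w → e v K K' = e w K K'
  /-- fundamental equality -/
  finite_over : ∀ (v : Pt Ω) {K K' : IntermediateField ℂ Ω}, FF K → FF K' → K ≤ K' →
    {P : Pl K' | SameOn K P.pt v}.Finite
  sum_e : ∀ (v : Pt Ω) {K K' : IntermediateField ℂ Ω}, FF K → FF K' → K ≤ K' →
    ∑ᶠ P ∈ {P : Pl K' | SameOn K P.pt v}, e P.pt K K' = K.relfinrank K'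
  finite_ram : ∀ {K K' : IntermediateField ℂ Ω}, FF K → FF K' → K ≤ K' →
    {P : Pl K' | e P.pt K K' ≠ 1}.Finite
  /-- Abhyankar's lemma (tame) -/
  e_sup : ∀ (v : Pt Ω) {K K₁ K₂ : IntermediateField ℂ Ω}, FF K → FF K₁ → FF K₂ → K ≤ K₁ → K ≤ K₂ →
    e v K (K₁ ⊔ K₂) = Nat.lcm (e v K K₁) (e v K K₂)
  transitive : ∀ {v w : Pt Ω} {K : IntermediateField ℂ Ω}, FF K → SameOn K v w →
    ∃ g : Ω ≃ₐ[ℂ] Ω, Fixes g K ∧ g • v = w
  exists_joint : ∀ {v₁ v₂ : Pt Ω} {K K₁ K₂ : IntermediateField ℂ Ω}, FF K → FF K₁ → FF K₂ →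
    K ≤ K₁ → K ≤ K₂ → K.relfinrank (K₁ ⊔ K₂) = K.relfinrank K₁ * K.relfinrank K₂ →
    SameOn K v₁ v₂ → ∃ v, SameOn K₁ v v₁ ∧ SameOn K₂ v v₂
  /-- values -/
  mem_ring_iff : ∀ (v : Pt Ω) (z : Ω), z ∈ v.ring ↔ val v z ≠ OnePoint.infty
  val_eq_coe_iff : ∀ (v : Pt Ω) (z : Ω) (c : ℂ), val v z = (c : OnePoint ℂ) ↔
    v.ring.valuation (z - algebraMap ℂ Ω c) < 1
  val_algebraMap : ∀ (v : Pt Ω) (c : ℂ), val v (algebraMap ℂ Ω c) = (c : OnePoint ℂ)
  val_smul : ∀ (g : Ω ≃ₐ[ℂ] Ω) (v : Pt Ω) (z : Ω), val (g • v) (g z) = val v z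
  val_eq_of_sameOn : ∀ {v w : Pt Ω} {K : IntermediateField ℂ Ω} {z : Ω}, SameOn K v w → z ∈ K →
    val v z = val w z
  sameOn_adjoin : ∀ {v w : Pt Ω} {y : Ω}, Transcendental ℂ y → val v y = val w y →
    SameOn ℂ⟮y⟯ v w
  exists_val : ∀ {y : Ω}, Transcendental ℂ y → ∀ p : OnePoint ℂ, ∃ v : Pt Ω, val v y = p
  val_ev : ∀ (v : Pt Ω) (A : RatFunc ℂ) {y : Ω}, Transcendental ℂ y →
    val v (ev A y) = pmap A (val v y)
  e_ev : ∀ (v : Pt Ω) (A : RatFunc ℂ) {y : Ω}, Transcendental ℂ y → 1 ≤ rdeg A →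
    e v ℂ⟮ev A y⟯ ℂ⟮y⟯ = locDeg A (val v y)
  /-- Euler characteristic -/
  chi_adjoin : ∀ {y : Ω}, Transcendental ℂ y → chi ℂ⟮y⟯ = 2
  chi_eq : ∀ {K K' : IntermediateField ℂ Ω}, FF K → FF K' → K ≤ K' →
    chi K' = K.relfinrank K' * chi K - Ram K K'
  chi_map : ∀ (g : Ω ≃ₐ[ℂ] Ω) {K : IntermediateField ℂ Ω}, FF K → chi (mapF g K) = chi K
  chi_le : ∀ {K : IntermediateField ℂ Ω}, FF K → chi K ≤ 2
  /-- orders -/
  ordAt_mul : ∀ (v : Pt Ω) {K : IntermediateField ℂ Ω} {z w : Ω}, FF K → z ∈ K → w ∈ K →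
    z ≠ 0 → w ≠ 0 → ordAt v K (z * w) = ordAt v K z + ordAt v K w
  ordAt_eq : ∀ (v : Pt Ω) {K K' : IntermediateField ℂ Ω} {z : Ω}, FF K → FF K' → K ≤ K' →
    z ∈ K → z ≠ 0 → ordAt v K' z = e v K K' * ordAt v K z
  ordAt_ev : ∀ (v : Pt Ω) (Q : RatFunc ℂ) {y : Ω}, Transcendental ℂ y → Q ≠ 0 →
    ordAt v ℂ⟮y⟯ (ev Q y) = ordQ Q (val v y)

/-! ### towers -/

/-- An `A`-tower: `x n = A (x (n+1))`, all transcendental -/
structure Tower (A : RatFunc ℂ) (x : ℤ → Ω) : Prop where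
  trans : ∀ n, Transcendental ℂ (x n)
  step : ∀ n, ev A (x (n + 1)) = x n

/-- the field `ℂ(x n)` -/
noncomputable abbrev Cx (x : ℤ → Ω) (n : ℤ) : IntermediateField ℂ Ω := ℂ⟮x n⟯

/-- `z` is `x`-small: `ℂ(x n, z)` has genus at most one for all `n` -/
def Small (x : ℤ → Ω) (z : Ω) : Prop := ∀ n : ℤ, 0 ≤ chi (Cx x n ⊔ ℂ⟮z⟯)

/-- `R` is the field of `x`-small elements -/
def IsSmallField (x : ℤ → Ω) (R : IntermediateField ℂ Ω) : Prop := ∀ z, z ∈ R ↔ Small x z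

/-- two towers are close -/
def Close (x x' : ℤ → Ω) : Prop := ∀ n : ℤ, 0 ≤ chi (Cx x n ⊔ Cx x' n)

/-- `K ≤ R` finite, Galois and stable over `ℂ(x N)` -/
structure GS (x : ℤ → Ω) (R : IntermediateField ℂ Ω) (N : ℤ) (K : IntermediateField ℂ Ω) :
    Prop where
  fg : K.FG
  le : Cx x N ≤ K
  leR : K ≤ R
  gal : ∀ g : Ω ≃ₐ[ℂ] Ω, Fixes g (Cx x N) → ∀ z ∈ K, g z ∈ K
  stable : ∀ k : ℕ, (Cx x (N + k)).relfinrank (K ⊔ Cx x (N + k)) = (Cx x N).relfinrank K

/-- The Galois tower of case 4b: `R = ⋃ E N`, `E N` Galois over `ℂ(x N)` with orbifold `nu`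
independent of `N`. -/
structure EFam (x : ℤ → Ω) (R : IntermediateField ℂ Ω) (σ : Ω ≃ₐ[ℂ] Ω)
    (E : ℤ → IntermediateField ℂ Ω) (nu : OnePoint ℂ → ℕ) (M : ℕ) : Prop where
  fg : ∀ N, (E N).FG
  le : ∀ N, Cx x N ≤ E N
  leR : ∀ N, E N ≤ R
  gal : ∀ N (g : Ω ≃ₐ[ℂ] Ω), Fixes g (Cx x N) → ∀ z ∈ E N, g z ∈ E N
  succ : ∀ N, E (N + 1) = E N ⊔ Cx x (N + 1)
  shift : ∀ N, mapF σ (E N) = E (N + 1)
  exhaust : ∀ z ∈ R, ∃ N, z ∈ E N
  nu_eq : ∀ (v : Pt Ω) (N : ℤ), e v (Cx x N) (E N) = nu (val v (x N))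
  nu_le : ∀ q, nu q ≤ M

/-- algebraic form of the notion of Lattès map, inside `Ω`: an endomorphism of a function field of genus one -/
def LattesIn (Ω : Type) [Field Ω] [Algebra ℂ Ω] (A : RatFunc ℂ) : Prop :=
  ∃ E : IntermediateField ℂ Ω, FF E ∧ chi E = 0 ∧ ∃ g : Ω ≃ₐ[ℂ] Ω, mapF g E ≤ E ∧
    ∃ θ ∈ E, Transcendental ℂ θ ∧ g θ = ev A θ

/-- `A` is a covering of a parabolic orbifold of `P^1(ℂ)` (this is what a Lattès map is) -/
def OrbLattes (A : RatFunc ℂ) : Prop :=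
  ∃ nu : OnePoint ℂ → ℕ, (∀ q, 0 < nu q) ∧ {q | nu q ≠ 1}.Finite ∧
    ∑ᶠ q, (1 - 1 / (nu q : ℚ)) = 2 ∧ ∀ q, locDeg A q * nu q = nu (pmap A q)

/-- special rational functions (form used inside the proof; `Ω` plays no role any more) -/
def SpecialIn (Ω : Type) [Field Ω] [Algebra ℂ Ω] (A : RatFunc ℂ) : Prop :=
  OrbLattes A ∨ IsPow A ∨ IsCheb A

/-- rigidity of close towers -/
def RigidU (Ω : Type) [Field Ω] [Algebra ℂ Ω] (A : RatFunc ℂ) : Prop :=
  ∀ x x' : ℤ → Ω, Tower A x → Tower A x' → x 0 = x' 0 → Close x x' → x 1 = x' 1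

/-- the bound of Claim B -/
def ClaimB (Ω : Type) [Field Ω] [Algebra ℂ Ω] (A : RatFunc ℂ) : Prop :=
  ∃ M : ℕ, ∀ x : ℤ → Ω, Tower A x → ∀ L : IntermediateField ℂ Ω, FF L → x 0 ∈ L →
    (∀ n : ℕ, 0 ≤ chi (L ⊔ Cx x n)) → x 1 ∉ L → (Cx x 0).relfinrank L ≤ M

end Pool.Agent.Helper63.Pak
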