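import Pool.Agent.Helper63.Pak.Defs

/-! Formal properties of the stabiliser index `e`. -/

namespace Pool.Agent.Helper63.Pak

open IntermediateField

variable {Ω : Type} [Field Ω] [Algebra ℂ Ω]

theorem Fixes.mono {g : Ω ≃ₐ[ℂ] Ω} {K K' : IntermediateField ℂ Ω} (h : K ≤ K') (hg : Fixes g K') :
    Fixes g K := fun z hz => hg z (h hz)

theorem SameOn.mono {v w : Pt Ω} {K K' : IntermediateField ℂ Ω} (h : K ≤ K')
    (hv : SameOn K' v w) : SameOn K v w := fun z hz => hv z (h hz)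

theorem SameOn.refl (K : IntermediateField ℂ Ω) (v : Pt Ω) : SameOn K v v := fun _ _ => Iff.rfl

theorem SameOn.symm {K : IntermediateField ℂ Ω} {v w : Pt Ω} (h : SameOn K v w) : SameOn K w v :=
  fun z hz => (h z hz).symm

theorem SameOn.trans {K : IntermediateField ℂ Ω} {u v w : Pt Ω} (h : SameOn K u v)
    (h' : SameOn K v w) : SameOn K u w := fun z hz => (h z hz).trans (h' z hz)

theorem SameOn.smul_of_fixes {K : IntermediateField ℂ Ω} {g : Ω ≃ₐ[ℂ] Ω} (hg : Fixes g K)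
    (v : Pt Ω) : SameOn K (g • v) v := by
  intro z hz
  rw [mem_smul_ring]
  have : g.symm z = z := by
    conv_lhs => rw [← hg z hz]
    exact g.symm_apply_apply z
  rw [this]

theorem mem_mapF {g : Ω ≃ₐ[ℂ] Ω} {K : IntermediateField ℂ Ω} {z : Ω} :
    z ∈ mapF g K ↔ g.symm z ∈ K := by
  constructor
  · rintro ⟨w, hw, rfl⟩
    have : g.symm (g w) = w := g.symm_apply_apply w
    change g.symm (g w) ∈ K
    rwa [this]
  · intro h
    exact ⟨g.symm z, h, g.apply_symm_apply z⟩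

theorem apply_mem_mapF {g : Ω ≃ₐ[ℂ] Ω} {K : IntermediateField ℂ Ω} {z : Ω} :
    g z ∈ mapF g K ↔ z ∈ K := by
  rw [mem_mapF, g.symm_apply_apply]

theorem fixes_mapF {g h : Ω ≃ₐ[ℂ] Ω} {K : IntermediateField ℂ Ω} :
    Fixes h (mapF g K) ↔ Fixes (g⁻¹ * h * g) K := by
  constructor
  · intro hf z hz
    have h1 := hf (g z) (apply_mem_mapF.2 hz)
    change g.symm (h (g z)) = z
    rw [h1, g.symm_apply_apply]
  · intro hf z hz
    have h1 : g.symm (h (g (g.symm z))) = g.symm z := hf (g.symm z) (mem_mapF.1 hz)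
    rw [g.apply_symm_apply] at h1
    exact g.symm.injective h1

theorem SameOn.smul {g : Ω ≃ₐ[ℂ] Ω} {K : IntermediateField ℂ Ω} {v w : Pt Ω} (h : SameOn K v w) :
    SameOn (mapF g K) (g • v) (g • w) := by
  intro z hz
  rw [mem_smul_ring, mem_smul_ring]
  exact h _ (mem_mapF.1 hz)

theorem stab_mono {v : Pt Ω} {K K' : IntermediateField ℂ Ω} (h : K ≤ K') :
    stab v K' ≤ stab v K := fun _ hg => ⟨hg.1.mono h, hg.2⟩

theorem e_self (v : Pt Ω) (K : IntermediateField ℂ Ω) : e v K K = 1 :=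
  Subgroup.relIndex_self _

theorem e_mul (v : Pt Ω) {K K' K'' : IntermediateField ℂ Ω} (h : K ≤ K') (h' : K' ≤ K'') :
    e v K K'' = e v K K' * e v K' K'' := by
  rw [e, e, e, mul_comm]
  exact (Subgroup.relIndex_mul_relIndex _ _ _ (stab_mono h') (stab_mono h)).symm

theorem stab_smul (g : Ω ≃ₐ[ℂ] Ω) (v : Pt Ω) (K : IntermediateField ℂ Ω) :
    stab (g • v) (mapF g K) = (stab v K).map (MulAut.conj g).toMonoidHom := by
  ext h
  rw [Subgroup.mem_map_equiv, mem_stab, mem_stab, fixes_mapF]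
  have h1 : (MulAut.conj g).symm h = g⁻¹ * h * g := by simp
  rw [h1]
  refine and_congr Iff.rfl ?_
  constructor
  · intro hh
    rw [mul_smul, mul_smul, hh, inv_smul_smul]
  · intro hh
    rw [mul_smul, mul_smul, inv_smul_eq_iff] at hh
    exact hh

theorem e_smul (g : Ω ≃ₐ[ℂ] Ω) (v : Pt Ω) (K K' : IntermediateField ℂ Ω) :
    e (g • v) (mapF g K) (mapF g K') = e v K K' := by
  rw [e, e, stab_smul, stab_smul]
  exact Subgroup.relIndex_map_map_of_injective _ _ (MulAut.conj g).injective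

end Pool.Agent.Helper63.Pak
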