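import Pool.Agent.Helper11.CurveDegree

/-! Orders are invariant under isomorphisms of function fields. -/

namespace Pool.Agent.Helper63.Pak

open Pool.Agent.Helper11

universe u

variable {k F F' : Type u} [Field k] [Field F] [Algebra k F] [Field F'] [Algebra k F']

theorem ord_unit (P : CurvePt k F) {u : F} (hu : u ∈ P.ring) (hu' : u⁻¹ ∈ P.ring) : P.ord u = 0 := by
  rcases eq_or_ne u 0 with rfl | h0
  · simp
  have h1 := (P.mem_ring_iff h0).1 hu
  have h2 := (P.mem_ring_iff (inv_ne_zero h0)).1 hu'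
  rw [P.ord_inv] at h2
  omega

theorem mem_ring_of_ord_eq_zero (P : CurvePt k F) {u : F} (h0 : u ≠ 0) (h : P.ord u = 0) :
    u ∈ P.ring ∧ u⁻¹ ∈ P.ring := by
  refine ⟨(P.mem_ring_iff h0).2 h.ge, (P.mem_ring_iff (inv_ne_zero h0)).2 ?_⟩
  rw [P.ord_inv, h, neg_zero]

theorem ord_zpow (P : CurvePt k F) {f : F} (hf : f ≠ 0) (n : ℤ) : P.ord (f ^ n) = n * P.ord f := by
  cases n with
  | ofNat n => simpa using P.ord_pow hf n
  | negSucc n =>
    rw [zpow_negSucc, P.ord_inv, P.ord_pow hf, Int.negSucc_eq]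
    push_cast
    ring

/-- a ring homomorphism compatible with two points multiplies orders by a constant: the order of
the image of a uniformiser -/
theorem ord_comp_eq (P : CurvePt k F) (P' : CurvePt k F') (φ : F →+* F')
    (h : ∀ z, z ∈ P.ring ↔ φ z ∈ P'.ring) {t : F} (ht : P.ord t = 1) (z : F) :
    P'.ord (φ z) = P.ord z * P'.ord (φ t) := by
  have ht0 : t ≠ 0 := by
    rintro rfl
    simp at ht
  rcases eq_or_ne z 0 with rfl | hz
  · simp
  have hφt : φ t ≠ 0 := by simpa using ht0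
  have hu0 : z * t ^ (-P.ord z) ≠ 0 := mul_ne_zero hz (zpow_ne_zero _ ht0)
  have hu : P.ord (z * t ^ (-P.ord z)) = 0 := by
    rw [P.ord_mul hz (zpow_ne_zero _ ht0), ord_zpow P ht0, ht]
    ring
  obtain ⟨h1, h2⟩ := mem_ring_of_ord_eq_zero P hu0 hu
  have h3 : P'.ord (φ (z * t ^ (-P.ord z))) = 0 := by
    refine ord_unit P' ((h _).1 h1) ?_
    rw [← map_inv₀]
    exact (h _).1 h2
  rw [map_mul, map_zpow₀, P'.ord_mul (by simpa using hz) (zpow_ne_zero _ hφt),
    ord_zpow P' hφt] at h3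
  linarith

theorem ord_equiv (P : CurvePt k F) (P' : CurvePt k F') (φ : F ≃+* F')
    (h : ∀ z, z ∈ P.ring ↔ φ z ∈ P'.ring) (z : F) : P'.ord (φ z) = P.ord z := by
  obtain ⟨t, -, ht⟩ := P.exists_ord_eq_one
  obtain ⟨t', ht'0, ht'⟩ := P'.exists_ord_eq_one
  have h1 := ord_comp_eq P P' (φ : F →+* F') h ht (φ.symm t')
  have h2 : (φ : F →+* F') (φ.symm t') = t' := φ.apply_symm_apply t'
  rw [h2, ht'] at h1
  have ht0 : t ≠ 0 := by
    rintro rfl
    simp at ht
  have h3 : 0 ≤ P'.ord (φ t) := by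
    rw [← P'.mem_ring_iff (by simpa using ht0)]
    exact (h t).1 ((P.mem_ring_iff ht0).2 (by omega))
  have h4 : P'.ord (φ t) = 1 := by
    have h5 : P'.ord (φ t) ∣ 1 := ⟨P.ord (φ.symm t'), by rw [mul_comm]; exact h1⟩
    exact Int.eq_one_of_dvd_one h3 h5
  have h6 := ord_comp_eq P P' (φ : F →+* F') h ht z
  have h7 : P'.ord ((φ : F →+* F') t) = 1 := h4
  rw [h7, mul_one] at h6
  exact h6

end Pool.Agent.Helper63.Pak
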