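import Pool.Agent.Helper63.Pak.Statement
import Pool.Agent.Helper63.Pak.OrdEquiv

/-! The genus is invariant under isomorphisms. -/

namespace Pool.Agent.Helper63.Pak

open Pool.Agent.Helper11

variable {F F' : Type} [Field F] [Algebra ℂ F] [Field F'] [Algebra ℂ F']

/-- transport of a point along an isomorphism -/
noncomputable def mapPt (φ : F ≃ₐ[ℂ] F') (P : CurvePt ℂ F) : CurvePt ℂ F' where
  ring := P.ring.comap (φ.symm : F' →+* F)
  const_mem c := by
    rw [ValuationSubring.mem_comap]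
    have : (φ.symm : F' →+* F) (algebraMap ℂ F' c) = algebraMap ℂ F c := φ.symm.commutes c
    rw [this]
    exact P.const_mem c
  isDVR := by
    have key : ∀ z : F, z ∈ P.ring → φ z ∈ P.ring.comap (φ.symm : F' →+* F) := by
      intro z hz
      rw [ValuationSubring.mem_comap]
      have : (φ.symm : F' →+* F) (φ z) = z := φ.symm_apply_apply z
      rwa [this]
    have key' : ∀ z : F', z ∈ P.ring.comap (φ.symm : F' →+* F) → φ.symm z ∈ P.ring := fun z hz => hz
    let ψ : P.ring ≃+* (P.ring.comap (φ.symm : F' →+* F)) :=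
      { toFun := fun z => ⟨φ z, key z z.2⟩
        invFun := fun z => ⟨φ.symm z, key' z z.2⟩
        left_inv := fun z => Subtype.ext (φ.symm_apply_apply _)
        right_inv := fun z => Subtype.ext (φ.apply_symm_apply _)
        map_mul' := fun a b => Subtype.ext (map_mul φ _ _)
        map_add' := fun a b => Subtype.ext (map_add φ _ _) }
    exact IsDiscreteValuationRing.RingEquivClass.isDiscreteValuationRing ψ

theorem mem_mapPt (φ : F ≃ₐ[ℂ] F') (P : CurvePt ℂ F) (z : F) :
    z ∈ P.ring ↔ φ z ∈ (mapPt φ P).ring := by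
  change _ ↔ φ z ∈ P.ring.comap (φ.symm : F' →+* F)
  rw [ValuationSubring.mem_comap]
  have : (φ.symm : F' →+* F) (φ z) = z := φ.symm_apply_apply z
  rw [this]

theorem ord_mapPt (φ : F ≃ₐ[ℂ] F') (P : CurvePt ℂ F) (z : F) : (mapPt φ P).ord (φ z) = P.ord z :=
  ord_equiv P (mapPt φ P) (φ : F ≃+* F') (mem_mapPt φ P) z

/-- transport as a bijection -/
noncomputable def mapPtEquiv (φ : F ≃ₐ[ℂ] F') : CurvePt ℂ F ≃ CurvePt ℂ F' where
  toFun := mapPt φ
  invFun := mapPt φ.symm
  left_inv P := by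
    apply CurvePt.ext'
    ext z
    exact (mem_mapPt φ P z).symm
  right_inv P := by
    apply CurvePt.ext'
    ext z
    exact (mem_mapPt φ.symm P z).symm

theorem value_unique (P : CurvePt ℂ F) {t : F} {c c' : ℂ} (ht : Transcendental ℂ t)
    (h : 0 < P.ord (t - algebraMap ℂ F c)) (h' : 0 < P.ord (t - algebraMap ℂ F c')) : c = c' := by
  by_contra hcc
  have hne : ∀ c : ℂ, t - algebraMap ℂ F c ≠ 0 := by
    intro c h0
    rw [sub_eq_zero] at h0
    exact ht (h0 ▸ isAlgebraic_algebraMap c)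
  have h1 : algebraMap ℂ F (c' - c) = (t - algebraMap ℂ F c) + -(t - algebraMap ℂ F c') := by
    rw [map_sub]
    ring
  have h2 : (t - algebraMap ℂ F c) + -(t - algebraMap ℂ F c') ≠ 0 := by
    rw [← h1, Ne, map_eq_zero]
    exact fun h => hcc (sub_eq_zero.1 h).symm
  have hneg : P.ord (-(t - algebraMap ℂ F c')) = P.ord (t - algebraMap ℂ F c') := by
    rw [CurvePt.ord_def, CurvePt.ord_def, Valuation.map_neg]
  have h3 := P.ord_add_ge h2 (n := 1) (Or.inr (by omega)) (Or.inr (by rw [hneg]; omega))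
  rw [← h1, P.ord_algebraMap] at h3
  omega

theorem ordDiff_of_value (P : CurvePt ℂ F) {t : F} {c : ℂ} (ht : Transcendental ℂ t)
    (h : 0 < P.ord (t - algebraMap ℂ F c)) : ordDiff P t = P.ord (t - algebraMap ℂ F c) - 1 := by
  have hex : ∃ c : ℂ, 0 < P.ord (t - algebraMap ℂ F c) := ⟨c, h⟩
  rw [ordDiff, dif_pos hex, value_unique P ht hex.choose_spec h]

theorem ordDiff_of_pole (P : CurvePt ℂ F) {t : F}
    (h : ¬ ∃ c : ℂ, 0 < P.ord (t - algebraMap ℂ F c)) : ordDiff P t = P.ord t - 1 := by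
  rw [ordDiff, dif_neg h]

theorem ordDiff_mapPt (φ : F ≃ₐ[ℂ] F') (P : CurvePt ℂ F) {t : F} (ht : Transcendental ℂ t) :
    ordDiff (mapPt φ P) (φ t) = ordDiff P t := by
  have ht' : Transcendental ℂ (φ t) := by
    intro h
    apply ht
    have := h.algHom (φ.symm : F' →ₐ[ℂ] F)
    simpa using this
  have key : ∀ c : ℂ, (mapPt φ P).ord (φ t - algebraMap ℂ F' c) = P.ord (t - algebraMap ℂ F c) := by
    intro c
    rw [← ord_mapPt φ P, map_sub, φ.commutes]
  by_cases h : ∃ c : ℂ, 0 < P.ord (t - algebraMap ℂ F c)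
  · obtain ⟨c, hc⟩ := h
    rw [ordDiff_of_value P ht hc, ordDiff_of_value (mapPt φ P) ht' (c := c) (by rwa [key]), key]
  · rw [ordDiff_of_pole P h, ordDiff_of_pole (mapPt φ P) (by simpa only [key] using h), ord_mapPt]

theorem IsCurveField.of_algEquiv (φ : F ≃ₐ[ℂ] F') (h : IsCurveField ℂ F) : IsCurveField ℂ F' := by
  constructor
  · obtain ⟨u, hu⟩ := h.fg
    classical
    refine ⟨u.image φ, ?_⟩
    rw [Finset.coe_image]
    have := IntermediateField.adjoin_map ℂ (u : Set F) (φ : F →ₐ[ℂ] F')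
    rw [hu] at this
    have h2 : (φ : F →ₐ[ℂ] F') '' (u : Set F) = φ '' (u : Set F) := rfl
    rw [← h2, ← this, eq_top_iff]
    intro z _
    exact ⟨φ.symm z, trivial, φ.apply_symm_apply z⟩
  · rw [← φ.trdeg_eq]
    exact h.trdeg_eq_one

theorem HasGenus.of_algEquiv (φ : F ≃ₐ[ℂ] F') {g : ℕ} (h : HasGenus F g) : HasGenus F' g := by
  obtain ⟨hF, t, ht, hfin, hsum⟩ := h
  refine ⟨IsCurveField.of_algEquiv φ hF, φ t, ?_, ?_, ?_⟩
  · intro h
    apply ht
    have := h.algHom (φ.symm : F' →ₐ[ℂ] F)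
    simpa using this
  · have : {P : CurvePt ℂ F' | ordDiff P (φ t) ≠ 0} =
        mapPtEquiv φ '' {P : CurvePt ℂ F | ordDiff P t ≠ 0} := by
      ext P
      simp only [Set.mem_image, Set.mem_ofPred_eq]
      constructor
      · intro hP
        refine ⟨(mapPtEquiv φ).symm P, ?_, (mapPtEquiv φ).apply_symm_apply P⟩
        rw [← ordDiff_mapPt φ _ ht]
        have : mapPt φ ((mapPtEquiv φ).symm P) = P := (mapPtEquiv φ).apply_symm_apply P
        rwa [this]
      · rintro ⟨Q, hQ, rfl⟩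
        have : ordDiff (mapPt φ Q) (φ t) = ordDiff Q t := ordDiff_mapPt φ Q ht
        change ordDiff (mapPt φ Q) (φ t) ≠ 0
        rwa [this]
    rw [this]
    exact hfin.image _
  · rw [← hsum, ← finsum_comp_equiv (mapPtEquiv φ)]
    exact finsum_congr fun P => ordDiff_mapPt φ P ht

end Pool.Agent.Helper63.Pak
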