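import Pool.Agent.Helper46.Pak.PTB
import Pool.Agent.Helper82.Pak.PTG2
import Pool.Agent.Helper63.Pak.GenusEquiv
import Pool.Agent.Helper63.Pak.Universe

/-! From plane curves and abstract function fields to subfields of `Ω`, and back. -/

namespace Pool.Agent.Helper63.Pak

open IntermediateField Pool.Agent.Helper11

variable {Ω : Type} [Field Ω] [Algebra ℂ Ω] [CurveUniverse Ω]

/-- places of `E` as points of the curve -/
noncomputable def plEquiv {E : IntermediateField ℂ Ω} (hE : FF E) : Pl E ≃ CurvePt ℂ E :=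
  Equiv.ofBijective (fun P => restr hE P.pt) (by
    constructor
    · intro P Q h
      have h1 : SameOn E P.pt Q.pt := (restr_eq_iff hE).1 h
      rw [← P.mk_pt, ← Q.mk_pt]
      exact Pl.mk_eq_mk.2 h1
    · intro Q
      obtain ⟨v, rfl⟩ := restr_surjective hE Q
      exact ⟨Pl.mk E v, (restr_eq_iff hE).2 (Pl.sameOn_pt_mk E v)⟩)

theorem bridge_ordO_eq {E : IntermediateField ℂ Ω} (hE : FF E) (v : Pt Ω) (z : E) :
    ordO v E z = (restr hE v).ord z := by
  rw [ordO, dif_pos ⟨hE, z.2⟩]

theorem ordDiff_restr {E : IntermediateField ℂ Ω} (hE : FF E) (v : Pt Ω) {t : E}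
    (ht : Transcendental ℂ t) : ordDiff (restr hE v) t = ordD v E t := by
  have hne : ∀ c : ℂ, (t : Ω) - algebraMap ℂ Ω c ≠ 0 := by
    intro c h0
    apply ht
    have : t = algebraMap ℂ E c := Subtype.ext (sub_eq_zero.1 h0)
    rw [this]
    exact isAlgebraic_algebraMap c
  have hco : ∀ c : ℂ, ((t - algebraMap ℂ E c : E) : Ω) = (t : Ω) - algebraMap ℂ Ω c :=
    fun c => rfl
  have key : ∀ c : ℂ, 0 < (restr hE v).ord (t - algebraMap ℂ E c) ↔ val v t = (c : OnePoint ℂ) := by
    intro c
    rw [← bridge_ordO_eq hE v, hco, pt_val_eq_coe_iff]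
    exact ordO_pos_iff v hE (sub_mem t.2 (E.algebraMap_mem c)) (hne c)
  rcases hv : val v (t : Ω) with _ | c
  · rw [ordDiff_of_pole _ (by
      rintro ⟨c, hc⟩
      rw [key, hv] at hc
      exact OnePoint.infty_ne_coe c hc), ordD, hv, ← bridge_ordO_eq hE v]
  · rw [ordDiff_of_value _ ht ((key c).2 hv), ordD, hv, ← bridge_ordO_eq hE v]
    rfl

theorem hasGenus_iff {E : IntermediateField ℂ Ω} (hE : FF E) (g : ℕ) :
    HasGenus E g ↔ chi E = 2 - 2 * (g : ℤ) := by
  have key : ∀ t : E, Transcendental ℂ t → {P : CurvePt ℂ E | ordDiff P t ≠ 0}.Finite ∧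
      chi E = -∑ᶠ P : CurvePt ℂ E, ordDiff P t := by
    intro t ht
    have htr : Transcendental ℂ (t : Ω) := by
      intro h
      apply ht
      exact (isAlgebraic_algHom_iff E.val Subtype.val_injective).1 h
    obtain ⟨hfin, hsum⟩ := chiOver_eq_sum hE t.2 htr
    have h1 : ∀ P : Pl E, ordDiff (plEquiv hE P) t = ordD P.pt E t := fun P =>
      ordDiff_restr hE P.pt ht
    refine ⟨?_, ?_⟩
    · have : {P : CurvePt ℂ E | ordDiff P t ≠ 0} = plEquiv hE '' {P : Pl E | ordD P.pt E t ≠ 0} := by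
        ext P
        simp only [Set.mem_image, Set.mem_ofPred_eq]
        constructor
        · intro hP
          refine ⟨(plEquiv hE).symm P, ?_, (plEquiv hE).apply_symm_apply P⟩
          rw [← h1, (plEquiv hE).apply_symm_apply P]
          exact hP
        · rintro ⟨Q, hQ, rfl⟩
          rwa [h1]
      rw [this]
      exact hfin.image _
    · rw [pt_chi_eq_chiOver hE t.2 htr, hsum, ← finsum_comp_equiv (plEquiv hE)]
      congr 1
      exact finsum_congr fun P => (h1 P).symm
  constructor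
  · rintro ⟨-, t, ht, -, hsum⟩
    rw [(key t ht).2, hsum]
    ring
  · intro h
    obtain ⟨t, ht⟩ := exists_transcendental_of_trdeg (FF.isCurveField hE).trdeg_eq_one
    refine ⟨FF.isCurveField hE, t, ht, (key t ht).1, ?_⟩
    have := (key t ht).2
    linarith

theorem chi_fieldRange {F : Type} [Field F] [Algebra ℂ F] {g : ℕ} (hF : HasGenus F g)
    (ι : F →ₐ[ℂ] Ω) : chi ι.fieldRange = 2 - 2 * (g : ℤ) := by
  rw [← hasGenus_iff (ff_fieldRange hF.1 ι)]
  exact hF.of_algEquiv (AlgHom.equivFieldRange ι)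

section Curve

/-- a component of genus `≤ 1` of the curve `F(x) = G(y)` gives a subfield of `Ω` -/
theorem exists_of_factor {F G : RatFunc ℂ} (hF : 1 ≤ rdeg F) (hG : 1 ≤ rdeg G)
    (h : HasFactorOfGenusLEOne F G) : ∃ a b : Ω, Transcendental ℂ a ∧ Transcendental ℂ b ∧
      ev F a = ev G b ∧ 0 ≤ chi (ℂ⟮a⟯ ⊔ ℂ⟮b⟯) := by
  obtain ⟨f, hf, hdvd, hgen⟩ := h
  have hdom := isDomain_coordRing hf
  set K := FractionRing (MvPolynomial (Fin 2) ℂ ⧸ Ideal.span {f}) with hK
  obtain ⟨g, hg, hKg⟩ : ∃ g : ℕ, g ≤ 1 ∧ HasGenus K g := by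
    rcases hgen with h | h
    · exact ⟨0, Nat.zero_le _, h⟩
    · exact ⟨1, le_rfl, h⟩
  obtain ⟨ι⟩ := exists_embedding (Ω := Ω) hKg.1
  let φ : MvPolynomial (Fin 2) ℂ →ₐ[ℂ] K :=
    (IsScalarTower.toAlgHom ℂ (MvPolynomial (Fin 2) ℂ ⧸ Ideal.span {f}) K).comp
      (Ideal.Quotient.mkₐ ℂ (Ideal.span {f}))
  have hφf : φ f = 0 := by
    change algebraMap _ K (Ideal.Quotient.mk (Ideal.span {f}) f) = 0
    rw [Ideal.Quotient.eq_zero_iff_mem.2 (Ideal.mem_span_singleton_self f), map_zero]
  have hφc : φ (curvePoly F G) = 0 := by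
    obtain ⟨q, hq⟩ := hdvd
    rw [hq, map_mul, hφf, zero_mul]
  set ξ : K := φ (MvPolynomial.X 0) with hξ
  set η : K := φ (MvPolynomial.X 1) with hη
  have hcurve : Polynomial.aeval ξ F.num * Polynomial.aeval η G.denom =
      Polynomial.aeval η G.num * Polynomial.aeval ξ F.denom := by
    rw [curvePoly, map_sub, map_mul, map_mul, sub_eq_zero, ← Polynomial.aeval_algHom_apply,
      ← Polynomial.aeval_algHom_apply, ← Polynomial.aeval_algHom_apply,
      ← Polynomial.aeval_algHom_apply] at hφc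
    exact hφc
  -- `K` is generated by `ξ, η`
  have hgenK : ∀ (L : IntermediateField ℂ K), ξ ∈ L → η ∈ L → L = ⊤ := by
    intro L hξL hηL
    rw [eq_top_iff]
    intro z _
    have hφL : ∀ p : MvPolynomial (Fin 2) ℂ, φ p ∈ L := by
      intro p
      have : φ p = MvPolynomial.aeval ![ξ, η] p := by
        have : φ = MvPolynomial.aeval ![ξ, η] := by
          apply MvPolynomial.algHom_ext
          intro i
          fin_cases i
          · simp [hξ]
          · simp [hη]
        rw [this]
      rw [this]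
      have h2 : MvPolynomial.aeval ![ξ, η] p ∈ Algebra.adjoin ℂ (Set.range ![ξ, η]) := by
        rw [Algebra.adjoin_range_eq_range_aeval]
        exact ⟨p, rfl⟩
      have h3 : Algebra.adjoin ℂ (Set.range ![ξ, η]) ≤ L.toSubalgebra := by
        rw [Algebra.adjoin_le_iff]
        rintro _ ⟨i, rfl⟩
        fin_cases i
        · exact hξL
        · exact hηL
      exact h3 h2
    obtain ⟨a, b, hb, rfl⟩ := IsFractionRing.div_surjective
      (A := MvPolynomial (Fin 2) ℂ ⧸ Ideal.span {f}) z
    obtain ⟨a, rfl⟩ := Ideal.Quotient.mk_surjective a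
    obtain ⟨b, rfl⟩ := Ideal.Quotient.mk_surjective b
    exact div_mem (hφL a) (hφL b)
  have htop : (⊤ : IntermediateField ℂ K) ≠ ⊥ := by
    intro h
    obtain ⟨t, ht⟩ := exists_transcendental_of_trdeg hKg.1.trdeg_eq_one
    have : t ∈ (⊤ : IntermediateField ℂ K) := trivial
    rw [h, IntermediateField.mem_bot] at this
    obtain ⟨c, rfl⟩ := this
    exact ht (isAlgebraic_algebraMap c)
  -- algebraic elements are constants
  have hconst : ∀ z : K, ¬ Transcendental ℂ z → ∃ c : ℂ, z = algebraMap ℂ K c := by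
    intro z hz
    by_contra hc
    exact hz (transcendental_of_not_mem fun ⟨c, hcc⟩ => hc ⟨c, hcc.symm⟩)
  have haev : ∀ (p : Polynomial ℂ) (c : ℂ), Polynomial.aeval (algebraMap ℂ K c) p =
      algebraMap ℂ K (p.eval c) := fun p c => Polynomial.aeval_algebraMap_apply_eq_algebraMap_eval c p
  have hnot : ∀ {F G : RatFunc ℂ} {ξ η : K}, 1 ≤ rdeg G →
      (∀ (L : IntermediateField ℂ K), ξ ∈ L → η ∈ L → L = ⊤) →
      Polynomial.aeval ξ F.num * Polynomial.aeval η G.denom =
        Polynomial.aeval η G.num * Polynomial.aeval ξ F.denom → Transcendental ℂ ξ := by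
    intro F G ξ η hG hgenK hcurve
    by_contra hξt
    obtain ⟨c, rfl⟩ := hconst ξ hξt
    have hηt : Transcendental ℂ η := by
      by_contra hηt
      obtain ⟨c', rfl⟩ := hconst η hηt
      exact htop ((hgenK ⊥ (IntermediateField.algebraMap_mem _ _)
        (IntermediateField.algebraMap_mem _ _)).symm)
    have h1 : Polynomial.aeval η (Polynomial.C (F.num.eval c) * G.denom -
        Polynomial.C (F.denom.eval c) * G.num) = 0 := by
      rw [map_sub, map_mul, map_mul, Polynomial.aeval_C, Polynomial.aeval_C, ← haev, ← haev, hcurve]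
      ring
    have h2 := (transcendental_iff_injective.1 hηt) (h1.trans (map_zero _).symm)
    have hcop := RatFunc.isCoprime_num_denom F
    by_cases hd : F.denom.eval c = 0
    · have hn : F.num.eval c ≠ 0 := by
        intro hn
        obtain ⟨u, w, huw⟩ := hcop
        have := congrArg (Polynomial.eval c) huw
        simp [hn, hd] at this
      rw [hd, Polynomial.C_0, zero_mul, sub_zero, mul_eq_zero, Polynomial.C_eq_zero] at h2
      rcases h2 with h2 | h2
      · exact hn h2
      · exact G.denom_ne_zero h2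
    · have h3 : G.num = Polynomial.C (F.num.eval c / F.denom.eval c) * G.denom := by
        rw [sub_eq_zero] at h2
        have h4 : Polynomial.C (F.denom.eval c) * G.num =
            Polynomial.C (F.denom.eval c) * (Polynomial.C (F.num.eval c / F.denom.eval c) * G.denom) := by
          rw [← h2, ← mul_assoc, ← Polynomial.C_mul]
          congr 2
          field_simp
        exact mul_left_cancel₀ (by simpa using hd) h4
      have h5 : G.denom ∣ G.num := ⟨_, h3.trans (mul_comm _ _)⟩
      have h6 : IsUnit G.denom := (RatFunc.isCoprime_num_denom G).isUnit_of_dvd' h5 dvd_rfl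
      have h7 : G.denom.natDegree = 0 := Polynomial.natDegree_eq_zero_of_isUnit h6
      have h8 : G.num.natDegree = 0 := by
        rw [h3]
        have := Polynomial.natDegree_C_mul_le (F.num.eval c / F.denom.eval c) G.denom
        omega
      have h9 : rdeg G = 0 := by rw [rdeg, h7, h8]; rfl
      omega
  have hξt : Transcendental ℂ ξ := hnot hG hgenK hcurve
  have hηt : Transcendental ℂ η := hnot (F := G) (G := F) hF (fun L h1 h2 => hgenK L h2 h1)
    hcurve.symm
  have htrι : ∀ z : K, Transcendental ℂ z → Transcendental ℂ (ι z) := by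
    intro z hz h
    exact hz ((isAlgebraic_algHom_iff ι ι.injective).1 h)
  refine ⟨ι ξ, ι η, htrι _ hξt, htrι _ hηt, ?_, ?_⟩
  · have hne : ∀ (p : Polynomial ℂ) (z : K), Transcendental ℂ z → p ≠ 0 →
        p.eval₂ (algebraMap ℂ Ω) (ι z) ≠ 0 := by
      intro p z hz hp h
      exact hp ((transcendental_iff_injective.1 (htrι z hz)) (h.trans (map_zero _).symm))
    have hι : ∀ (p : Polynomial ℂ) (z : K), p.eval₂ (algebraMap ℂ Ω) (ι z) =
        ι (Polynomial.aeval z p) := fun p z => Polynomial.aeval_algHom_apply ι z p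
    rw [ev, ev, RatFunc.eval, RatFunc.eval, div_eq_div_iff (hne _ _ hξt F.denom_ne_zero)
      (hne _ _ hηt G.denom_ne_zero), hι, hι, hι, hι, ← map_mul, ← map_mul, hcurve]
  · have hE : ℂ⟮ι ξ⟯ ⊔ ℂ⟮ι η⟯ = ι.fieldRange := by
      have h1 : (ℂ⟮ξ⟯ ⊔ ℂ⟮η⟯ : IntermediateField ℂ K) = ⊤ :=
        hgenK _ ((le_sup_left : ℂ⟮ξ⟯ ≤ _) (mem_adjoin_simple_self ℂ ξ))
          ((le_sup_right : ℂ⟮η⟯ ≤ _) (mem_adjoin_simple_self ℂ η))
      have h2 : (⊤ : IntermediateField ℂ K).map ι = ι.fieldRange := by
        ext z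
        simp [IntermediateField.mem_map]
      rw [← h2, ← h1, IntermediateField.map_sup, adjoin_map, adjoin_map, Set.image_singleton,
        Set.image_singleton]
    rw [hE, chi_fieldRange hKg ι]
    omega

end Curve

end Pool.Agent.Helper63.Pak
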