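import Pool.Agent.Helper37.Pak.PTA
import Pool.Agent.Helper39.Pak.PTC
import Pool.Agent.Helper50.Pak.PTE
import Pool.Agent.Helper42.Pak.PTF
import Pool.Agent.Helper82.Pak.PTG2
import Pool.Agent.Helper83.Pak.PTH

/-! Assembly of the place-theoretic facts. -/

namespace Pool.Agent.Helper63.Pak

open IntermediateField

variable {Ω : Type} [Field Ω] [Algebra ℂ Ω] [CurveUniverse Ω]

theorem pt_e_pos (v : Pt Ω) {K K' : IntermediateField ℂ Ω} (hK : FF K) (hK' : FF K')
    (h : K ≤ K') : 0 < e v K K' := by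
  rw [pt_e_eq_eV v hK hK' h]
  exact eV_pos v hK hK' h

variable (Ω) in
theorem ptFacts : PTFacts Ω where
  relfinrank_pos hK hK' h := ff_relfinrank_pos hK hK' h
  e_pos v _ _ hK hK' h := pt_e_pos v hK hK' h
  e_congr hK hK' h hvw := pt_e_congr hK hK' h hvw
  finite_over v _ _ hK hK' h := finite_over v hK hK' h
  sum_e v K K' hK hK' h := by
    rw [← sum_eV v hK hK' h]
    exact finsum_congr fun P => finsum_congr fun _ => pt_e_eq_eV P.pt hK hK' h
  finite_ram hK hK' h := pt_finite_ram hK hK' h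
  e_sup v _ _ _ hK h₁ h₂ h h' := pt_e_sup v hK h₁ h₂ h h'
  transitive hK h := pt_transitive hK h
  exists_joint hK h₁ h₂ h h' hd hv := pt_exists_joint hK h₁ h₂ h h' hd hv
  mem_ring_iff := pt_mem_ring_iff
  val_eq_coe_iff := pt_val_eq_coe_iff
  val_algebraMap := pt_val_algebraMap
  val_smul := pt_val_smul
  val_eq_of_sameOn h hz := pt_val_eq_of_sameOn h hz
  sameOn_adjoin hy h := pt_sameOn_adjoin hy h
  exists_val hy p := pt_exists_val hy p
  val_ev v A _ hy := pt_val_ev v A hy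
  e_ev v A _ hy hA := pt_e_ev v A hy hA
  chi_adjoin hy := pt_chi_adjoin hy
  chi_eq hK hK' h := pt_chi_eq hK hK' h
  chi_map g _ hK := pt_chi_map g hK
  chi_le hK := pt_chi_le hK
  ordAt_mul v K z w hK hz hw hz0 hw0 := by
    rw [pt_ordAt_eq_ordO v hK (mul_mem hz hw) (mul_ne_zero hz0 hw0), pt_ordAt_eq_ordO v hK hz hz0,
      pt_ordAt_eq_ordO v hK hw hw0]
    exact ordO_mul v hK hz hw hz0 hw0
  ordAt_eq v K K' z hK hK' h hz hz0 := by
    rw [pt_ordAt_eq_ordO v hK' (h hz) hz0, pt_ordAt_eq_ordO v hK hz hz0,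
      pt_e_eq_eV v hK hK' h]
    exact ordO_eq_eV_mul v hK hK' h hz
  ordAt_ev v Q _ hy hQ := pt_ordAt_ev v Q hy hQ

end Pool.Agent.Helper63.Pak
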