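import Pool.Agent.Helper63.Pak.Main
import Pool.Agent.Helper63.Pak.PTAll
import Pool.Agent.Helper43.Pak.ChainLemma

/-! The final theorem for MP_005844_an. -/

namespace Pool.Agent.Helper63.Pak

theorem final {A B : RatFunc ℂ} (hA : 2 ≤ rdeg A) (hB : 2 ≤ rdeg B)
    (h : ∀ n m : ℕ, 1 ≤ n → 1 ≤ m → HasFactorOfGenusLEOne (iter A n) (iter B m)) :
    (IsSpecial A ∧ IsSpecial B) ∨ ∃ k l : ℕ, 1 ≤ k ∧ 1 ≤ l ∧ iter A k = iter B l :=
  main (ptFacts Uni) chainLemma hA hB h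

end Pool.Agent.Helper63.Pak
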