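import Pool.Agent.Helper63.Pak.Bridge
import Pool.Agent.Helper97.Pak.END
import Pool.Agent.Helper46.Pak.CB
import Pool.Agent.Helper15.Pak.UU
import Pool.Agent.Helper15.Pak.LWFinal

/-! Assembly of the main theorem. -/

namespace Pool.Agent.Helper63.Pak

open IntermediateField

theorem IsPow.special {A : RatFunc ℂ} (h : IsPow A) : IsSpecial A :=
  Or.inr (Or.inl ⟨rdeg A, h⟩)

theorem IsCheb.special {A : RatFunc ℂ} (h : IsCheb A) : IsSpecial A :=
  Or.inr (Or.inr ⟨rdeg A, h⟩)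

theorem SpecialIn.special (hPT : PTFacts Uni) {A : RatFunc ℂ} (hA : 2 ≤ rdeg A)
    (h : SpecialIn Uni A) : IsSpecial A := by
  rcases h with h | h | h
  · exact Or.inl (h.isLattesW hPT hA)
  · exact h.special
  · exact h.special

/-- one-sided form: `A` is not special -/
theorem common_iterate_of_not_special (hPT : PTFacts Uni) (hChain : ChainLemma) {A B : RatFunc ℂ}
    (hA : 2 ≤ rdeg A) (hB : 2 ≤ rdeg B) (hS : ¬ IsSpecial A)
    (h : ∀ n m : ℕ, 1 ≤ n → 1 ≤ m → ∃ a b : Uni, Transcendental ℂ a ∧ Transcendental ℂ b ∧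
      ev (iter A n) a = ev (iter B m) b ∧ 0 ≤ chi (ℂ⟮a⟯ ⊔ ℂ⟮b⟯)) :
    ∃ k l, 1 ≤ k ∧ 1 ≤ l ∧ iter A k = iter B l := by
  have hS' : ¬ SpecialIn Uni A := fun h => hS (h.special hPT hA)
  obtain ⟨x, y, hx, hy, h0, hc⟩ := exists_towers hPT hA hB h
  exact common_iterate hPT hChain hA hB hS'
    (claimB_of_rigidU hPT hA (rigidU hPT hA hS')) hx hy h0 hc

theorem main (hPT : PTFacts Uni) (hChain : ChainLemma) {A B : RatFunc ℂ} (hA : 2 ≤ rdeg A)
    (hB : 2 ≤ rdeg B)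
    (h : ∀ n m : ℕ, 1 ≤ n → 1 ≤ m → HasFactorOfGenusLEOne (iter A n) (iter B m)) :
    (IsSpecial A ∧ IsSpecial B) ∨ ∃ k l, 1 ≤ k ∧ 1 ≤ l ∧ iter A k = iter B l := by
  have hdeg : ∀ (A : RatFunc ℂ), 2 ≤ rdeg A → ∀ n, 1 ≤ rdeg (iter A n) := fun A hA n => by
    rw [rdeg_iter]
    exact Nat.one_le_pow _ _ (by omega)
  have key : ∀ n m : ℕ, 1 ≤ n → 1 ≤ m → ∃ a b : Uni, Transcendental ℂ a ∧ Transcendental ℂ b ∧
      ev (iter A n) a = ev (iter B m) b ∧ 0 ≤ chi (ℂ⟮a⟯ ⊔ ℂ⟮b⟯) := fun n m hn hm =>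
    exists_of_factor (hdeg A hA n) (hdeg B hB m) (h n m hn hm)
  by_cases hSA : IsSpecial A
  · by_cases hSB : IsSpecial B
    · exact Or.inl ⟨hSA, hSB⟩
    · right
      obtain ⟨k, l, hk, hl, hkl⟩ := common_iterate_of_not_special hPT hChain hB hA hSB
        (fun n m hn hm => by
          obtain ⟨a, b, ha, hb, hab, hchi⟩ := key m n hm hn
          exact ⟨b, a, hb, ha, hab.symm, by rwa [sup_comm]⟩)
      exact ⟨l, k, hl, hk, hkl.symm⟩
  · exact Or.inr (common_iterate_of_not_special hPT hChain hA hB hSA key)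

end Pool.Agent.Helper63.Pak
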