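import Mathlib

/-!
# Rational functions over `ℂ`: degree, composition, iterates, Moebius conjugacy
-/

namespace Pool.Agent.Helper63.Pak

/-- degree of a rational function -/
noncomputable def rdeg (A : RatFunc ℂ) : ℕ := max A.num.natDegree A.denom.natDegree

/-- composition `A ∘ B` -/
noncomputable def comp (A B : RatFunc ℂ) : RatFunc ℂ := RatFunc.eval RatFunc.C B A

/-- iterates -/
noncomputable def iter (A : RatFunc ℂ) : ℕ → RatFunc ℂ
  | 0 => RatFunc.X
  | n + 1 => comp A (iter A n)

/-- `A` and `B` are conjugate by a Moebius transformation: `μ ∘ A = B ∘ μ`, `deg μ = 1` -/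
def MobConj (A B : RatFunc ℂ) : Prop := ∃ μ : RatFunc ℂ, rdeg μ = 1 ∧ comp μ A = comp B μ

/-- Chebyshev polynomial as a rational function -/
noncomputable def cheb (n : ℕ) : RatFunc ℂ :=
  algebraMap (Polynomial ℂ) (RatFunc ℂ) (Polynomial.Chebyshev.T ℂ n)

end Pool.Agent.Helper63.Pak
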